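import Pool.Agent.Lib.MP_696deb_nt.CX.D0

/-! Growth of the locally trivial cocycles gives finite generation, the rank and the corank. -/

set_option autoImplicit false

open scoped Classical
open Module
open WeierstrassCurve WeierstrassCurve.Affine

namespace Pool.Agent.Lib.MP_696deb_nt.CX

open CU
open CK (lka_root lka_ker lka_fg)

variable {r e : ℕ} {W : WeierstrassCurve ℚ} {a : Gam → A →+ A} {Ψ : Pts W Qbar ≃+ A}

theorem gn_vc (W : WeierstrassCurve ℚ) : VC (algebraMap ℚ Qbar) W (W.baseChange Qbar) 1 0 0 0 := by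
  refine ⟨one_ne_zero, ?_, ?_, ?_, ?_, ?_⟩ <;> simp [WeierstrassCurve.baseChange]

theorem gn_pts (P : Pts W Qbar) :
    P ∈ (gn_vc W).hom.range ↔ ∀ g : Gam, pm W (g : Qbar →+* Qbar) P = P := by
  rcases P with _ | ⟨x, y, h⟩
  · exact iff_of_true ⟨0, rfl⟩ fun g => rfl
  constructor
  · rintro ⟨_ | ⟨a, b, k⟩, e⟩ g
    · exact absurd e.symm (Point.some_ne_zero _)
    · obtain ⟨e1, e2⟩ := (Point.some.injEq ..).mp e
      obtain rfl : algebraMap ℚ Qbar a = x := by simpa using e1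
      obtain rfl : algebraMap ℚ Qbar b = y := by simpa using e2
      exact (Point.some.injEq ..).mpr ⟨g.commutes a, g.commutes b⟩
  · intro k
    obtain ⟨a, rfl⟩ := B2.fx_top (x := x) fun g _ => ((Point.some.injEq ..).mp (k g)).1
    obtain ⟨b, rfl⟩ := B2.fx_top (x := y) fun g _ => ((Point.some.injEq ..).mp (k g)).2
    exact (gn_vc W).mem_range _ (x := a) (y := b) (by simp) (by simp)

theorem Lnk.pts (L : Lnk W a Ψ) : ∃ f : W.toAffine.Point →+ A, Function.Injective f ∧
    ∀ P, P ∈ f.range ↔ ∀ g, a g P = P := by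
  refine ⟨Ψ.toAddMonoidHom.comp (gn_vc W).hom, Ψ.injective.comp (gn_vc W).hom_injective,
    fun P => ?_⟩
  obtain ⟨Q, rfl⟩ := Ψ.surjective P
  simp only [← L.gal, Ψ.injective.eq_iff, ← gn_pts]
  exact exists_congr fun R => Ψ.injective.eq_iff

theorem gn_card (h : GroA a e) : ∃ C : ℕ, ∀ (m : ℕ) (s : Finset (Gam → A)),
    (∀ ξ ∈ s, ξ ∈ ZA a m) → s.card ≤ C * 3 ^ (e * m) := by
  obtain ⟨C, hC⟩ := h
  refine ⟨C, fun m s hs => le_trans ?_ (hC m).2⟩
  rw [← Set.ncard_coe_finset]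
  exact Set.ncard_le_ncard hs (hC m).1

theorem gn_mem (hc : ∀ Q : A, Coc ⊤ a (cob a Q)) {m : ℕ} {Q : A}
    (h : ∀ g, a g (3 ^ m • Q) = 3 ^ m • Q) : cob a Q ∈ ZA a m :=
  ⟨hc Q, fun g => by rw [cob, smul_sub, ← map_nsmul, h g, sub_self], fun _ _ => ⟨Q, fun _ _ => rfl⟩⟩

theorem gn_eq {Q Q' : A} (h : cob a Q = cob a Q') (g : Gam) : a g (Q - Q') = Q - Q' :=
  sub_eq_zero.1 ((cob_sub _ Q Q' g).trans (by rw [h, sub_self]))

theorem gn_cork (hc : ∀ Q : A, Coc ⊤ a (cob a Q)) (h : GroA a e) {G : Type*} [AddCommGroup G] (f : G →+ A)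
    (hf : Function.Injective f) (hr : ∀ P, P ∈ f.range ↔ ∀ g, a g P = P) :
    (nsmulAddMonoidHom (α := G) 3).range.FiniteIndex := by
  obtain ⟨C, hC⟩ := gn_card h
  choose rt hh using lka_root 1
  simp only [pow_one] at hh
  have : Finite (G ⧸ (nsmulAddMonoidHom (α := G) 3).range) := by
    have inj : Function.Injective fun x : G ⧸ (nsmulAddMonoidHom (α := G) 3).range =>
        cob a (rt (f x.out)) := fun x y e => by
      obtain ⟨R, hR⟩ := (hr _).2 (gn_eq e.symm)
      rw [← x.out_eq, ← y.out_eq]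
      refine QuotientAddGroup.eq.2 ⟨R, hf ?_⟩
      rw [nsmulAddMonoidHom_apply, map_nsmul, hR, smul_sub, hh, hh, map_add, map_neg,
        neg_add_eq_sub]
    by_contra k
    rw [not_finite_iff_infinite] at k
    obtain ⟨s, hs⟩ := Infinite.exists_subset_card_eq
      (G ⧸ (nsmulAddMonoidHom (α := G) 3).range) (C * 3 ^ (e * 1) + 1)
    have := hC 1 (s.map ⟨_, inj⟩) fun ξ hξ => by
      obtain ⟨x, -, rfl⟩ := Finset.mem_map.1 hξ
      exact gn_mem hc fun g => by rw [pow_one, hh]; exact (hr _).1 ⟨_, rfl⟩ g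
    rw [Finset.card_map, hs] at this
    omega
  exact AddSubgroup.finiteIndex_of_finite_quotient

theorem gn_rank {d : ℕ} (hc : ∀ Q : A, Coc ⊤ a (cob a Q)) (h : GroA a e) {G : Type*} [AddCommGroup G]
    [Module.Finite ℤ G] (f : G →+ A) (hf : Function.Injective f)
    (hr : ∀ P, P ∈ f.range ↔ ∀ g, a g P = P) (hd : d ≤ finrank ℤ G) : d + 2 ≤ e := by
  by_contra k
  obtain ⟨π, hπ⟩ := B2.lk_surj (G := G) hd
  choose P hP using hπ
  obtain ⟨C, hC⟩ := gn_card h
  let t := (B2.lk_finite_tors (G := G)).toFinset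
  have main : ∀ m : ℕ, 3 ^ ((d + 2) * m) ≤ t.card * (C * 3 ^ (e * m)) := fun m => by
    choose Q hQ using lka_root m
    have fin : Finite (nsmulAddMonoidHom (α := A) (3 ^ m)).ker :=
      Nat.finite_of_card_ne_zero (by rw [lka_ker]; positivity)
    have := Fintype.ofFinite (nsmulAddMonoidHom (α := A) (3 ^ m)).ker
    let F : (Fin d → Fin (3 ^ m)) × (nsmulAddMonoidHom (α := A) (3 ^ m)).ker → A := fun x =>
      Q (f (P fun i => ((x.1 i : ℕ) : ℤ))) + x.2
    have hF : ∀ x, 3 ^ m • F x = f (P fun i => ((x.1 i : ℕ) : ℤ)) := fun x => by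
      have : 3 ^ m • x.2.1 = 0 := x.2.2
      rw [smul_add, hQ, this, add_zero]
    have h1 : Fintype.card ((Fin d → Fin (3 ^ m)) × (nsmulAddMonoidHom (α := A) (3 ^ m)).ker) ≤
        t.card * (Finset.univ.image fun x => cob a (F x)).card := by
      refine Finset.card_le_mul_card_image _ _ fun q hq => ?_
      obtain ⟨y, -, rfl⟩ := Finset.mem_image.1 hq
      have key : ∀ x, cob a (F x) = cob a (F y) →
          x.1 = y.1 ∧ ∃ R ∈ t, f R = x.2 - y.2 := fun x e => by
        obtain ⟨R, hR⟩ := (hr _).2 (gn_eq e)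
        have a1 := congrArg (3 ^ m • ·) hR
        simp only [smul_sub, hF, ← map_nsmul, ← map_sub] at a1
        have a2 := congrArg π (hf a1)
        rw [map_nsmul, map_sub, hP, hP] at a2
        have a3 : x.1 = y.1 := funext fun i => Fin.ext (by
          have a4 := congrFun a2 i
          simp only [Pi.smul_apply, Pi.sub_apply, nsmul_eq_mul] at a4
          exact (Nat.modEq_iff_dvd.2 ⟨_, a4.symm⟩).symm.eq_of_lt_of_lt (x.1 i).2 (y.1 i).2)
        refine ⟨a3, R, ?_, by rw [hR]; simp only [F, a3, add_sub_add_left_eq_sub]⟩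
        refine (Set.Finite.mem_toFinset _).2
          (isOfFinAddOrder_iff_nsmul_eq_zero.2 ⟨3 ^ m, by positivity, hf ?_⟩)
        rw [a1, a3, sub_self]
      choose a' R b c using key
      refine Finset.card_le_card_of_injOn
        (fun x => if e : cob a (F x) = cob a (F y) then R x e else 0)
        (fun x hx => ?_) fun x hx x' hx' e => ?_
      · have e := (Finset.mem_filter.1 hx).2
        simpa only [dif_pos e, Finset.mem_coe] using b x e
      · have e1 := (Finset.mem_filter.1 hx).2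
        have e2 := (Finset.mem_filter.1 hx').2
        simp only [dif_pos e1, dif_pos e2] at e
        exact Prod.ext ((a' x e1).trans (a' x' e2).symm)
          (Subtype.ext (sub_left_inj.1 ((c x e1).symm.trans (e ▸ c x' e2))))
    have h2 := hC m (Finset.univ.image fun x => cob a (F x)) fun ξ hξ => by
      obtain ⟨x, -, rfl⟩ := Finset.mem_image.1 hξ
      exact gn_mem hc fun g => by rw [hF]; exact (hr _).1 ⟨_, rfl⟩ g
    rw [Fintype.card_prod,
      ← Nat.card_eq_fintype_card (α := (nsmulAddMonoidHom (α := A) (3 ^ m)).ker), lka_ker] at h1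
    refine le_trans (le_of_eq ?_) (h1.trans (Nat.mul_le_mul_left _ h2))
    rw [Fintype.card_fun, Fintype.card_fin, Fintype.card_fin]
    ring
  have h3 := (Nat.pow_le_pow_right three_pos
    (Nat.mul_le_mul_right (t.card * C) (show 1 + e ≤ d + 2 by omega))).trans (main (t.card * C))
  rw [add_mul, one_mul, pow_add, ← mul_assoc t.card] at h3
  exact (Nat.le_of_mul_le_mul_right h3 (by positivity)).not_gt (Nat.lt_pow_self (by norm_num))

theorem Lnk.fg [W.IsElliptic] (L : Lnk W a Ψ) (h : GroA a e) :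
    Module.Finite ℤ W.toAffine.Point := by
  obtain ⟨f, hf, hr⟩ := L.pts
  exact lka_fg _ (gn_cork L.coc h f hf hr)

theorem Lnk.rank [W.IsElliptic] (L : Lnk W a Ψ) (h : GroA a e) :
    finrank ℤ W.toAffine.Point + 2 ≤ e := by
  obtain ⟨f, hf, hr⟩ := L.pts
  have := L.fg h
  exact gn_rank L.coc h f hf hr le_rfl

/-- The points that are killed by a power of three. -/
noncomputable def gT (k : ℕ) : AddSubgroup A := (nsmulAddMonoidHom (α := A) (3 ^ k)).ker

/-- The coboundary map. -/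
noncomputable def gD (hc : ∀ Q : A, Coc ⊤ a (cob a Q)) (k : ℕ) : gT k →+ ZA a k :=
  AddMonoidHom.mk' (fun P => ⟨cob a P, gn_mem hc fun g => by
    rw [show 3 ^ k • P.1 = 0 from P.2, map_zero]⟩) fun P Q =>
    Subtype.ext (funext (cob_add _ P.1 Q.1))

theorem Lnk.cohom (L : Lnk W a Ψ) {k : ℕ} {ξ η : Gam → Pts W Qbar} {c d : ZA a k}
    (hc : ∀ g, c.1 g = Ψ (ξ g)) (hd : ∀ g, d.1 g = Ψ (η g)) :
    Cohom W (3 ^ k) ξ η ↔ (c : ZA a k ⧸ (gD L.coc k).range) = d := by
  rw [QuotientAddGroup.eq_iff_sub_mem]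
  constructor
  · rintro ⟨S, u, v⟩
    refine ⟨⟨Ψ S, (by rw [← map_nsmul, u, map_zero] : 3 ^ k • Ψ S = 0)⟩,
      Subtype.ext (funext fun g => ?_)⟩
    change a g (Ψ S) - Ψ S = c.1 g - d.1 g
    rw [hc, hd, ← L.gal, ← map_sub, ← map_sub]
    exact congrArg _ (v g).symm
  · rintro ⟨⟨P, u⟩, v⟩
    obtain ⟨S, rfl⟩ := Ψ.surjective P
    refine ⟨S, Ψ.injective (by rw [map_nsmul, show 3 ^ k • Ψ S = 0 from u, map_zero]),
      fun g : Gam => Ψ.injective ?_⟩
    rw [map_sub, map_sub, ← hc, ← hd]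
    exact (congrFun (congrArg Subtype.val v) g).symm.trans
      (congrArg (· - Ψ S) (L.gal g S).symm)

theorem gn_mul (hc : ∀ Q : A, Coc ⊤ a (cob a Q)) (k : ℕ) :
    Nat.card (gD hc k).range * Nat.card (gD hc k).ker = 3 ^ (2 * k) := by
  rw [← lka_ker, show (nsmulAddMonoidHom (α := A) (3 ^ k)).ker = gT k from rfl,
    AddSubgroup.card_eq_card_quotient_mul_card_addSubgroup (gD hc k).ker,
    Nat.card_congr (QuotientAddGroup.quotientKerEquivRange _).toEquiv]

theorem Lnk.corank [W.IsElliptic] (L : Lnk W a Ψ) (h : GroA a (r + 2)) : CorankLE3 W r := by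
  have := L.fg h
  obtain ⟨C, hC⟩ := h
  obtain ⟨f, f1, f2⟩ := L.pts
  have ft := (B2.lk_finite_tors (G := W.toAffine.Point)).to_subtype
  refine ⟨Nat.card {P : W.toAffine.Point | IsOfFinAddOrder P} * C,
    fun k (s : Finset (Gam → Pts W Qbar)) h1 h2 => ?_⟩
  have : Finite (ZA a k) := (hC k).1.to_subtype
  have h3 : s.card ≤ Nat.card (ZA a k ⧸ (gD L.coc k).range) := by
    rw [← Nat.card_eq_finsetCard]
    exact Nat.card_le_card_of_injective
      (fun x : s => QuotientAddGroup.mk ⟨_, L.sel k _ (h1 _ x.2)⟩) fun x y e =>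
        Subtype.ext (h2 _ x.2 _ y.2 ((L.cohom (fun _ => rfl) fun _ => rfl).2 e))
  have h4 : Nat.card (gD L.coc k).ker ≤ Nat.card {P : W.toAffine.Point | IsOfFinAddOrder P} := by
    choose R hR using fun x : (gD L.coc k).ker => (f2 x.1.1).2 fun g =>
      sub_eq_zero.1 (congrFun (congrArg Subtype.val x.2) g)
    exact Nat.card_le_card_of_injective (fun x => ⟨R x, isOfFinAddOrder_iff_nsmul_eq_zero.2
      ⟨3 ^ k, by positivity, f1 (by rw [map_nsmul, hR, show 3 ^ k • x.1.1 = 0 from x.1.2, map_zero])⟩⟩)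
      fun x y e => Subtype.ext (Subtype.ext (by rw [← hR, ← hR, Subtype.mk.inj e]))
  have h5 := (hC k).2
  rw [AddSubgroup.card_eq_card_quotient_mul_card_addSubgroup (gD L.coc k).range] at h5
  refine Nat.le_of_mul_le_mul_right (c := 3 ^ (2 * k)) ?_ (by positivity)
  calc s.card * 3 ^ (2 * k)
      = s.card * Nat.card (gD L.coc k).range * Nat.card (gD L.coc k).ker := by
        rw [mul_assoc, gn_mul]
    _ ≤ _ := Nat.mul_le_mul ((Nat.mul_le_mul_right _ h3).trans h5) h4
    _ = _ := by ring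

end Pool.Agent.Lib.MP_696deb_nt.CX
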