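import Pool.Agent.Lib.MP_696deb_nt.CX.Al
import Pool.Agent.Lib.MP_696deb_nt.CX.Gen
import Pool.Agent.Lib.MP_696deb_nt.CV.E1

/-! The growth condition in the three cases. -/

set_option autoImplicit false

open scoped Classical

namespace Pool.Agent.Lib.MP_696deb_nt.CX

open CU
open CU.CV (Qd dr)

variable {n s e k : ℕ} {D : ℤ} {δ : Qbar}

theorem za_le (n e k : ℕ) : ZA (act n e) k ≤ Zs n e (2 * k) := fun _ h =>
  CK.mem_Zs_of_loc h.1 (fun g => (three_pow_iff k _).1 (h.2.1 g)) h.2.2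

theorem gro_one (hn : n ≠ 0) (h : Gro n s) : GroA (act n 1) s := by
  obtain ⟨C, hC⟩ := h
  refine ⟨C, fun k => ⟨(finite_Zs hn 1 _).subset (za_le n 1 k), le_trans ?_ (hC k)⟩⟩
  have := (finite_Zs hn 1 (2 * k)).to_subtype
  exact AddSubgroup.card_le_of_le (za_le n 1 k)

theorem gro_zero (hn : n ≠ 0) (h : Gro n s) : GroA (act n 0) s := by
  obtain ⟨C, hC⟩ := h
  refine ⟨Nat.card (Zs n 0 1) * C, fun k => ⟨(finite_Zs hn 0 _).subset (za_le n 0 k), ?_⟩⟩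
  have := (finite_Zs hn 0 (2 * k + 1)).to_subtype
  refine (AddSubgroup.card_le_of_le ((za_le n 0 k).trans (zs_mono (Nat.le_succ _)))).trans ?_
  rw [mul_assoc]
  exact (card_Zs_th hn 0 (2 * k)).trans (Nat.mul_le_mul_left _ (hC k))

theorem ac_one (h : ∀ g : Gam, g δ = δ) (n : ℕ) : ac δ n = act n 1 := funext fun g => by
  rw [ac, sg, if_pos (h g), one_smul]

theorem ac_zero (h : ∀ g : Gam, sg δ g = ep g) (n : ℕ) : ac δ n = act n 0 := funext fun g => by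
  ext P
  rw [ac_apply, h, act_apply, act_apply, one_add_one_eq_two, pow_two, ep_sq, one_smul, zero_add,
    pow_one]

/-- A square root of `-3`. -/
noncomputable def s3 : Qbar := 1 + 2 * zeta 1

theorem s3_sq : s3 ^ 2 = -3 := by
  have := H3.zeta_one
  rw [s3]
  linear_combination 4 * this

theorem s3_ne : s3 ≠ 0 := fun e => by simpa [e] using s3_sq

theorem gal_s3 (g : Gam) : g s3 = ep g * s3 := by
  have h := H3.zeta_one
  rw [s3, map_add, map_one, map_mul, map_ofNat, ep]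
  split_ifs with e
  · rw [H3.smul_zeta_one (mem_GK.2 e), Int.cast_one, one_mul]
  · rw [H3.b1b_spec, show cy 1 g = -1 from (chi_cases g).resolve_left e,
      show (-1 : ZMod (3 ^ 1)).val = 2 from rfl]
    push_cast
    linear_combination 2 * h

theorem fix_of_sq (h : δ ^ 2 = D) (k : IsSquare D) (g : Gam) : g δ = δ := by
  obtain ⟨c, rfl⟩ := k
  rcases sq_eq_sq_iff_eq_or_eq_neg.1 (show δ ^ 2 = (c : Qbar) ^ 2 by rw [h]; push_cast; ring) with
    rfl | rfl <;> simp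

theorem d1_sq (h : δ ^ 2 = D) : (δ * s3) ^ 2 = (-3 * D : ℤ) := by
  rw [mul_pow, h, s3_sq]
  push_cast
  ring

theorem sg_s3 (h0 : δ ≠ 0) (h : δ ^ 2 = D) (g : Gam) : sg (δ * s3) g = sg δ g * ep g :=
  sg_eq (mul_ne_zero h0 s3_ne) (d1_sq h) (by
    rw [map_mul, gal_s3, sg_spec h g]
    push_cast
    ring)

theorem sg_of_sq (h0 : δ ≠ 0) (h : δ ^ 2 = D) (k : IsSquare (-3 * D)) (g : Gam) :
    sg δ g = ep g := by
  have := sg_s3 h0 h g
  rw [sg, if_pos (fix_of_sq (d1_sq h) k g)] at this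
  rw [← mul_one (sg δ g), ← ep_sq g, ← mul_assoc, ← this, one_mul]

theorem dr_eq (δ : Qbar) (g : Gam) : dr δ g = (sg δ g : F3) := by
  unfold dr sg
  split_ifs <;> simp

theorem exists_move (h : δ ^ 2 = D) (k : ¬ IsSquare D) :
    ∃ q : ℕ, q.Prime ∧ ∃ g ∈ Gq q, g δ ≠ δ := by
  have h0 : δ ≠ 0 := by
    rintro rfl
    exact k ⟨0, by exact_mod_cast (h.symm.trans (by norm_num) : (D : Qbar) = 0)⟩
  obtain ⟨s, hs⟩ := B2.exists_chi_ne k
  obtain ⟨w, φ, a, -, h2, h3, h4⟩ := B2.cheb (B2.chi D).ker s 1 ∅ (B2.op_ker_chi D) inferInstance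
    (by rw [MonoidHom.mem_ker, map_pow, hs]; rfl)
  rw [MonoidHom.mem_ker, map_mul, map_inv, map_pow, hs, h3.neg_one_pow, inv_mul_eq_one] at h4
  obtain ⟨t, ht⟩ := B2.plc_conj (w := w) (v := pl w.p) (pl_p w.prime).symm
  have h5 := h2.smul t
  rw [ht] at h5
  refine ⟨w.p, w.prime, _, h5.1, fun e => ?_⟩
  rw [B2.chi_spec h, map_mul, map_mul, map_inv, mul_inv_cancel_comm, h4] at e
  exact h0 (by simpa [neg_eq_self] using e)

theorem exists_Qd (h0 : ¬ IsSquare D) (h1 : ¬ IsSquare (-3 * D)) : ∃ δ : Qd, δ.D0 = D := by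
  have h := B2.rt_sq D
  have r0 : B2.rt D ≠ 0 := B2.b1b_rt_ne fun e => h0 (e ▸ ⟨0, rfl⟩)
  obtain ⟨p, p1, p2⟩ := exists_move h h0
  obtain ⟨q, q1, q2⟩ := exists_move (d1_sq h) h1
  exact ⟨⟨D, -3 * D, B2.rt D, B2.rt D * s3, p * q * (3 + D.natAbs + (-3 * D).natAbs).factorial, h,
    d1_sq h, fun g => by rw [dr_eq, dr_eq, sg_s3 r0 h, Int.cast_mul, ep_cast],
    mul_ne_zero (mul_ne_zero p1.ne_zero q1.ne_zero) (Nat.factorial_ne_zero _),
    fun c c0 c1 => (Nat.dvd_factorial (Nat.pos_of_ne_zero c0) c1).mul_left _,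
    ⟨p, p1, (dvd_mul_right p q).mul_right _, p2⟩, ⟨q, q1, (dvd_mul_left q p).mul_right _, q2⟩⟩, rfl⟩

theorem ac_cv [δ : Qd] (n : ℕ) : ac δ.r0 n = CV.act n 1 := rfl

theorem za_cv [δ : Qd] (n k : ℕ) : ZA (CV.act n 1) k ≤ CV.Zs n 1 (2 * k) := fun c h => by
  have hl : ∀ g, th ^ (2 * k) • c g = 0 := fun g => (three_pow_iff k _).1 (h.2.1 g)
  refine ⟨h.1, hl, fun q hq _ => h.2.2 q hq, fun q hq u => ?_⟩
  have u1 : ¬ q ∣ CV.MM := fun e => u (e.mul_right n)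
  have h3 := CV.ne_three u1
  have hs := sq_ine hq h3
  obtain ⟨P, hP⟩ := h.2.2 q hq
  have h4 : CV.sg (sq q) = 1 := if_pos (by
    rw [B2.chi_spec δ.h0, B2.chi_ine (w := pl q) _ hs, Units.val_one, Int.cast_one, one_mul]
    rw [pl_p hq, Int.natCast_dvd, Int.natAbs_mul, hq.dvd_mul]
    exact fun e => u1 (e.elim (·.trans CV.two_dvd) (·.trans CV.D0_dvd)))
  refine H3.rd_K1_tors (w := pl q) ?_ (h.2.1 (sq q))
  have h5 : c (sq q) = cob (act n 1) P (sq q) := by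
    rw [hP _ (sq_mem hq h3)]
    change CV.sg (sq q) • act n 1 (sq q) P - P = _
    rw [h4, one_smul, cob]
  rw [h5, e5_ine n 1 (chi_ine hq h3 hs), kk_ine hq h3 (fun e => u (e.mul_left _)) hs, un_zero,
    one_smul]
  exact H3.K1_ine (by rwa [pl_p hq]) hs P

theorem gro_cv [δ : Qd] (hf : ∀ l, (CV.Zs n 1 l : Set (Gam → A)).Finite) (h : CV.Gro n s) :
    GroA (ac δ.r0 n) s := by
  obtain ⟨C, hC⟩ := h
  refine ⟨C, fun k => ⟨(hf _).subset (za_cv n k), le_trans ?_ (hC k)⟩⟩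
  have := (hf (2 * k)).to_subtype
  exact AddSubgroup.card_le_of_le (za_cv n k)

end Pool.Agent.Lib.MP_696deb_nt.CX
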