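import Pool.Agent.Lib.MP_696deb_nt.CX.Sq
import Pool.Agent.Lib.MP_696deb_nt.CR.Lk

/-! The distribution of the Selmer corank in every family of cubic twists. -/

set_option autoImplicit false

open scoped Classical
open Filter Topology

namespace Pool.Agent.Lib.MP_696deb_nt.CX

theorem feS : FeStmt := fun _ _ _ t => ⟨CQ.wq_iff t.ne t.eq, CQ.fe t.ne t.eq⟩

theorem parS : ParStmt := fun _ _ _ hD hδ hn => exists_groA hD hδ hn

theorem tend {k : ℤ} (hk : k ≠ 0) {r : ℕ} (hr : r ≤ 1) :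
    Tendsto (fun X : ℕ => (Set.ncard {n : ℕ | 1 ≤ n ∧ n ≤ X ∧
      GoodK (IsSquare k ∨ IsSquare (-3 * k)) k r n} : ℝ) / X) atTop (𝓝 (1 / 2)) :=
  tendK parS feS hk (cnv_sq hk) hr

end Pool.Agent.Lib.MP_696deb_nt.CX
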