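import Pool.Agent.Lib.MP_696deb_nt.CX.Gen

/-! A bound for the corank gives the growth condition. -/

set_option autoImplicit false

open scoped Classical
open WeierstrassCurve WeierstrassCurve.Affine

namespace Pool.Agent.Lib.MP_696deb_nt.CX

open CU

variable {r k : ℕ} {W : WeierstrassCurve ℚ} {a : Gam → A →+ A} {Ψ : Pts W Qbar ≃+ A} {c : Gam → A}

theorem Lnk.mul (L : Lnk W a Ψ) (g g' : Gam) (P : A) : a (g * g') P = a g (a g' P) := by
  obtain ⟨Q, rfl⟩ := Ψ.surjective P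
  rw [← L.gal, ← L.gal, ← L.gal, CK.sa_pm]
  rfl

theorem Lnk.one (L : Lnk W a Ψ) (P : A) : a 1 P = P := by
  obtain ⟨Q, rfl⟩ := Ψ.surjective P
  rw [← L.gal]
  cases Q <;> rfl

theorem Lnk.symm (L : Lnk W a Ψ) (g : Gam) (P : A) :
    Ψ.symm (a g P) = pm W (g : Qbar →+* Qbar) (Ψ.symm P) := by
  rw [AddEquiv.symm_apply_eq, L.gal, AddEquiv.apply_symm_apply]

theorem Lnk.loc (L : Lnk W a Ψ) {F : Type} [Field F] [CharZero F]
    (h : ∀ j : Qbar →+* AlgebraicClosure F, ∃ S, ∀ (s : AbsGal F) (σ : Gam),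
      (∀ x, j (σ x) = s (j x)) → c σ = cob a S σ) :
    LocTriv W F fun g : Gam => Ψ.symm (c g) := fun j => by
  obtain ⟨S, hS⟩ := h j
  refine ⟨pm W j (Ψ.symm S), fun s (σ : Gam) e => ?_⟩
  have u : ∀ P, pm W j (pm W (σ : Qbar →+* Qbar) P) =
      pm W (s : AlgebraicClosure F →+* AlgebraicClosure F) (pm W j P) := by
    rintro (_ | ⟨x, y, h⟩)
    · rfl
    · exact (Point.some.injEq ..).mpr ⟨e x, e y⟩
  beta_reduce
  rw [hS s σ e, cob, map_sub, L.symm, ← u]
  exact map_sub (Point.map (W' := W.toAffine) j.toRatAlgHom) _ _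

theorem Lnk.sel_of (L : Lnk W a Ψ) (h : c ∈ ZA a k) :
    IsSel W (3 ^ k) fun g : Gam => Ψ.symm (c g) := by
  have coc : ∀ g g' : Gam, c (g * g') = c g + a g (c g') := fun g g' => h.1.2 g trivial g' trivial
  have c1 : c 1 = 0 := by
    have := coc 1 1
    rwa [mul_one, L.one, left_eq_add] at this
  have kil := h.2.1
  refine ⟨?_, fun g : Gam => (map_nsmul _ _ _).symm.trans (by rw [kil, map_zero]),
    fun σ τ : Gam => (congrArg Ψ.symm (coc σ τ)).trans (by rw [map_add, L.symm]; rfl),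
    L.loc fun j => ?_, fun p _ => L.loc fun j => ?_⟩
  · let _ : TopologicalSpace (Pts W Qbar) := ⊥
    have : DiscreteTopology (Pts W Qbar) := ⟨rfl⟩
    exact (IsLocallyConstant.iff_continuous _).2
      (continuousOn_univ.1 (h.1.1.comp Ψ.symm).continuousOn)
  · obtain ⟨t, ht⟩ := B2.lk_real j
    obtain ⟨m, hm⟩ : Odd (3 ^ k) := Odd.pow (by decide)
    refine ⟨m • c (t * cc * t⁻¹), fun s σ e => ?_⟩
    rcases ht s σ e with rfl | rfl
    · rw [c1, cob, L.one, sub_self]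
    · have h1 := coc (t * cc * t⁻¹) (t * cc * t⁻¹)
      rw [show t * cc * t⁻¹ * (t * cc * t⁻¹) = t * (cc * cc) * t⁻¹ by group, B2.cc_mul_cc, mul_one,
        mul_inv_cancel, c1] at h1
      have h2 := kil (t * cc * t⁻¹)
      rw [cob, map_nsmul, ← neg_eq_of_add_eq_zero_right h1.symm]
      rw [hm] at h2
      linear_combination (norm := module) h2
  · obtain ⟨w, hw⟩ := B2.lk_plc p j
    obtain ⟨S, hS⟩ := h.2.2 w.p w.prime
    obtain ⟨g, hg⟩ := B2.plc_conj (w := pl w.p) (v := w) (pl_p w.prime)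
    refine ⟨a g S - c g, fun s σ e => ?_⟩
    have hc := hw s σ e
    rw [← hg, B2.mem_Dec_smul] at hc
    have h3 := coc g (g⁻¹ * σ * g)
    rw [← mul_assoc, ← mul_assoc, mul_inv_cancel, one_mul, coc, hS _ hc, cob, map_sub,
      ← L.mul, ← mul_assoc, ← mul_assoc, mul_inv_cancel, one_mul, L.mul] at h3
    rw [cob, map_sub, eq_sub_of_add_eq h3]
    abel

theorem Lnk.gro (L : Lnk W a Ψ) (hf : ∀ k, (ZA a k : Set (Gam → A)).Finite) (h : CorankLE3 W r) :
    GroA a (r + 2) := by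
  obtain ⟨C, hC⟩ := h
  refine ⟨C, fun k => ⟨hf k, ?_⟩⟩
  have : Finite (ZA a k) := (hf k).to_subtype
  have := Fintype.ofFinite (ZA a k ⧸ (gD L.coc k).range)
  let f : ZA a k ⧸ (gD L.coc k).range → Gam → Pts W Qbar := fun x g => Ψ.symm (x.out.1 g)
  have key : ∀ x y, Cohom W (3 ^ k) (f x) (f y) → x = y := fun x y e => by
    have := (L.cohom (fun _ => (Ψ.apply_symm_apply _).symm)
      fun _ => (Ψ.apply_symm_apply _).symm).1 e
    rwa [QuotientAddGroup.out_eq', QuotientAddGroup.out_eq'] at this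
  have inj : Function.Injective f := fun x y e => key x y (e ▸ (L.cohom (c := x.out) (d := x.out)
    (fun _ => (Ψ.apply_symm_apply _).symm) fun _ => (Ψ.apply_symm_apply _).symm).2 rfl)
  have h2 := hC k (Finset.univ.map ⟨f, inj⟩) (fun x hx => by
    obtain ⟨y, -, rfl⟩ := Finset.mem_map.1 hx
    exact L.sel_of y.out.2) fun x hx y hy e => by
    obtain ⟨z, -, rfl⟩ := Finset.mem_map.1 hx
    obtain ⟨z', -, rfl⟩ := Finset.mem_map.1 hy
    rw [key z z' e]
  have h3 := (Finset.card_map _).symm.trans_le h2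
  rw [Finset.card_univ, ← Nat.card_eq_fintype_card] at h3
  rw [AddSubgroup.card_eq_card_quotient_mul_card_addSubgroup (gD L.coc k).range]
  refine (Nat.mul_le_mul h3 (Nat.le_of_dvd (by positivity)
    (Dvd.intro _ (gn_mul L.coc k)))).trans_eq ?_
  ring

end Pool.Agent.Lib.MP_696deb_nt.CX
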