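import Pool.Agent.Lib.MP_696deb_nt.CT.Half
import Pool.Agent.Lib.MP_696deb_nt.CQ.W

/-! The root number is equidistributed in every family of cubic twists. -/

set_option autoImplicit false

open scoped Classical
open Filter Topology Finset

namespace Pool.Agent.Lib.MP_696deb_nt.CX

open CT CQ

theorem hf_G {P c n : ℕ} (hc : c ≠ 0) (g : half_G P n) : half_G (c * P) (c * n) := fun d hd => by
  have g0 : 0 < d.gcd c := Nat.gcd_pos_of_pos_right d (Nat.pos_of_ne_zero hc)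
  obtain ⟨u, v, h1, h2, h3⟩ := Nat.exists_coprime d c
  generalize d.gcd c = e at g0 h2 h3
  have h4 : u ^ 2 * e ^ 2 ∣ v ^ 2 * n * e ^ 2 := by
    rw [← mul_pow, ← h2]
    exact hd.trans ⟨c, by rw [h3]; ring⟩
  have h5 := g u ((h1.pow 2 2).dvd_of_dvd_mul_left
    (Nat.dvd_of_mul_dvd_mul_right (pow_pos g0 2) h4))
  rw [h2, mul_comm]
  exact Nat.mul_le_mul (Nat.le_of_dvd (Nat.pos_of_ne_zero hc) ⟨v, by rw [h3, mul_comm]⟩) h5

theorem hf_prop {a b c t u : Prop} (h : ((a ↔ c) ↔ t) ↔ ¬ ((b ↔ c) ↔ t)) :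
    (a ↔ u) ↔ ¬ (b ↔ u) := by
  tauto

theorem hf_flip {D : ℤ} {P n m : ℕ} (hP : 3 + D.natAbs ≤ P) (hn : n ≠ 0) (hm : m ≠ 0)
    (g : half_G P n) (g1 : half_G P m) (h : 9 * P.factorial ^ (2 * P) ∣ n + m) :
    Wq D n ↔ ¬ Wq D m := by
  have hv : ∀ p, p.Prime → p ≤ P → n.factorization p = m.factorization p := fun p hp hl =>
    half_eq hn hm hp (half_lt hn hp g) (half_lt hm hp g1)
      (((pow_dvd_pow_of_dvd (Nat.dvd_factorial hp.pos hl) _).mul_left 9).trans h)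
  have h3 := hv 3 Nat.prime_three (by omega)
  have d1 := Nat.ordProj_mul_ordCompl_eq_self n 3
  have d2 := Nat.ordProj_mul_ordCompl_eq_self m 3
  have h9 : 9 ∣ n / 3 ^ n.factorization 3 + m / 3 ^ m.factorization 3 := by
    refine Nat.dvd_of_mul_dvd_mul_left (k := 3 ^ n.factorization 3) (by positivity) ?_
    rw [mul_add, d1, h3, d2, mul_comm]
    refine (mul_dvd_mul_left 9 ?_).trans h
    exact (pow_dvd_pow 3 (half_lt hm Nat.prime_three g1).le).trans
      (pow_dvd_pow_of_dvd (Nat.dvd_factorial (by norm_num) (by omega)) _)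
  have a : ∀ x : ℕ, (x.primeFactors.filter fun q => q % 3 = 2 ∧ x.factorization q % 3 ≠ 0).card =
      (x.primeFactors.filter fun q => q % 3 = 2 ∧ x.factorization q % 3 ≠ 0 ∧ Unr D q).card +
      (x.primeFactors.filter fun q => q % 3 = 2 ∧ x.factorization q % 3 ≠ 0 ∧ ¬ Unr D q).card :=
    fun x => by
      rw [← card_filter_add_card_filter_not (Unr D), filter_filter, filter_filter]
      simp only [and_assoc]
  have b : ∀ q, q.Prime → ¬ Unr D q → q ≤ P := fun q hq k => by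
    by_contra! e
    have : D.natAbs.factorization q = 0 := Nat.factorization_eq_zero_of_lt (by omega)
    exact k ⟨by rw [this], fun e => by omega⟩
  have c : ∀ x y : ℕ, y ≠ 0 → (∀ p, p.Prime → p ≤ P → x.factorization p = y.factorization p) →
      (x.primeFactors.filter fun q => q % 3 = 2 ∧ x.factorization q % 3 ≠ 0 ∧ ¬ Unr D q) ⊆
        y.primeFactors.filter fun q => q % 3 = 2 ∧ y.factorization q % 3 ≠ 0 ∧ ¬ Unr D q :=
    fun x y hy k q hq => by
      obtain ⟨q1, q2, q3, q4⟩ := mem_filter.1 hq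
      have pp := Nat.prime_of_mem_primeFactors q1
      rw [k q pp (b q pp q4)] at q3
      exact mem_filter.2 ⟨Nat.mem_primeFactors.2 ⟨pp, Nat.dvd_of_factorization_pos fun e => by
        simp [e] at q3, hy⟩, q2, q3, q4⟩
  have e := congrArg card (Subset.antisymm (c n m hm hv) (c m n hn fun p x y => (hv p x y).symm))
  have f := half_flip (by omega) hn hm g g1 h
  rw [CL.Wp, CL.Wp, a, a, e, Nat.even_add, Nat.even_add, ← h3] at f
  rw [← h3] at h9
  have k1 : (n / 3 ^ n.factorization 3 % 9 = 1 ∨ n / 3 ^ n.factorization 3 % 9 = 8) ↔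
      (m / 3 ^ n.factorization 3 % 9 = 1 ∨ m / 3 ^ n.factorization 3 % 9 = 8) := by omega
  have k2 : (n / 3 ^ n.factorization 3 % 9 = 4 ∨ n / 3 ^ n.factorization 3 % 9 = 5) ↔
      (m / 3 ^ n.factorization 3 % 9 = 4 ∨ m / 3 ^ n.factorization 3 % 9 = 5) := by omega
  have k3 : W3 D n ↔ W3 D m := by rw [W3, W3, ← h3, k1, k2]
  rw [k1] at f
  rw [Wq, Wq, k3]
  exact hf_prop f

theorem hf_est (D : ℤ) {c : ℕ} (hc : c ≠ 0) {ε : ℝ} (hε : 0 < ε) : ∃ X0 : ℕ, ∀ X ≥ X0,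
    |(((Icc 1 X).filter fun n => Wq D (c * n)).card : ℝ) - X / 2| ≤ ε * X := by
  obtain ⟨P, hP, hP1⟩ : ∃ P : ℕ, 3 + D.natAbs ≤ P ∧ 2 / ((P : ℝ) + 1) ≤ ε / 4 := by
    obtain ⟨P, h⟩ := exists_nat_ge (8 / ε)
    refine ⟨P + (3 + D.natAbs), by omega, ?_⟩
    rw [div_le_iff₀ hε] at h
    rw [div_le_iff₀ (by positivity), Nat.cast_add]
    nlinarith [Nat.cast_nonneg (α := ℝ) (3 + D.natAbs)]
  set M := 9 * (c * P).factorial ^ (2 * (c * P)) with hM
  have M0 : M ≠ 0 := by positivity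
  have fl : ∀ n m, n ≠ 0 → m ≠ 0 → half_G P n → half_G P m → M ∣ n + m →
      (Wq D (c * n) ↔ ¬ Wq D (c * m)) := fun n m a b g g1 e =>
    hf_flip (hP.trans (Nat.le_mul_of_pos_left P (Nat.pos_of_ne_zero hc))) (mul_ne_zero hc a)
      (mul_ne_zero hc b) (hf_G hc g) (hf_G hc g1) (by rw [← mul_add]; exact e.mul_left c)
  obtain ⟨X1, h1⟩ := exists_nat_ge (M / ε)
  refine ⟨max X1 M, fun X hX => ?_⟩
  have x1 : (X1 : ℝ) ≤ X := by exact_mod_cast (le_max_left _ _).trans hX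
  have x2 : (M : ℝ) ≤ X := by exact_mod_cast (le_max_right _ _).trans hX
  have x3 : (M : ℝ) ≤ ε * X := by
    rw [mul_comm]
    exact (div_le_iff₀ hε).1 (h1.trans x1)
  have a := half_cmp (P := P) M0 (A := fun n => Wq D (c * n)) (B := fun n => ¬ Wq D (c * n))
    (fun n m a b c d e f => (fl n m a b c d e).1 f) X
  have b := half_cmp (P := P) M0 (A := fun n => ¬ Wq D (c * n)) (B := fun n => Wq D (c * n))
    (fun n m a b c d e f => not_not.1 fun k => f ((fl n m a b c d e).2 k)) X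
  have c := half_sum (fun n => Wq D (c * n)) X
  have d : ((X : ℝ) + M) * (2 / (P + 1)) ≤ (X + X) * (ε / 4) :=
    mul_le_mul (by linarith) hP1 (by positivity) (by positivity)
  rw [abs_le]
  constructor <;> nlinarith

theorem half {V : ℕ → Prop} (hV : ∀ ε : ℝ, 0 < ε → ∃ X0 : ℕ, ∀ X ≥ X0,
      |(((Icc 1 X).filter V).card : ℝ) - X / 2| ≤ ε * X)
    {P : ℕ → ℕ → Prop} (hP : ∀ r n, n ≠ 0 → P r n → (r = 0 ↔ V n))
    (h : ∀ ε : ℝ, 0 < ε → ∃ X0 : ℕ, ∀ X ≥ X0,
      (Set.ncard {n : ℕ | 1 ≤ n ∧ n ≤ X ∧ ¬ P (if V n then 0 else 1) n} : ℝ) ≤ ε * X)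
    {r : ℕ} (hr : r ≤ 1) :
    Tendsto (fun X : ℕ => (Set.ncard {n : ℕ | 1 ≤ n ∧ n ≤ X ∧ P r n} : ℝ) / X)
      atTop (𝓝 (1 / 2)) := by
  refine half_lim fun ε hε => ?_
  obtain ⟨X0, h0⟩ := h (ε / 2) (by positivity)
  obtain ⟨X1, h1⟩ := hV (ε / 2) (by positivity)
  refine ⟨max X0 X1, fun X hX => ?_⟩
  have a := h0 X ((le_max_left _ _).trans hX)
  have b := h1 X ((le_max_right _ _).trans hX)
  rw [half_card] at a ⊢
  have c : |(((Icc 1 X).filter fun n => (r = 0 ↔ V n)).card : ℝ) - X / 2| ≤ ε / 2 * X := by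
    by_cases k : r = 0
    · simpa only [k, true_iff] using b
    · have := half_sum V X
      simp only [k, false_iff]
      rw [abs_le] at b ⊢
      constructor <;> linarith [b.1, b.2]
  have s1 : ((Icc 1 X).filter (P r)).card ≤ ((Icc 1 X).filter fun n => (r = 0 ↔ V n)).card :=
    card_le_card fun n hn => mem_filter.2 ⟨(mem_filter.1 hn).1, hP r n
      (Nat.one_le_iff_ne_zero.1 (mem_Icc.1 (mem_filter.1 hn).1).1) (mem_filter.1 hn).2⟩
  have s2 : ((Icc 1 X).filter fun n => (r = 0 ↔ V n)).card ≤ ((Icc 1 X).filter (P r)).card +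
      ((Icc 1 X).filter fun n => ¬ P (if V n then 0 else 1) n).card := by
    refine (card_le_card fun n hn => ?_).trans (card_union_le _ _)
    obtain ⟨k1, k2⟩ := mem_filter.1 hn
    have e : (if V n then 0 else 1) = r := by
      split_ifs with k
      · exact (k2.2 k).symm
      · have : r ≠ 0 := fun x => k (k2.1 x)
        omega
    by_cases k : P r n
    · exact mem_union_left _ (mem_filter.2 ⟨k1, k⟩)
    · exact mem_union_right _ (mem_filter.2 ⟨k1, by rwa [e]⟩)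
  have s3 := Nat.cast_le (α := ℝ).2 s1
  have s4 := Nat.cast_le (α := ℝ).2 s2
  rw [Nat.cast_add] at s4
  rw [abs_le] at c ⊢
  constructor <;> linarith [c.1, c.2]

end Pool.Agent.Lib.MP_696deb_nt.CX
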