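import Pool.Agent.Lib.MP_696deb_nt.CX.All
import Pool.Agent.Lib.MP_696deb_nt.CX.Cv
import Pool.Agent.Lib.MP_696deb_nt.CX.Half

/-! The distribution of the Selmer corank in every family of cubic twists, from the parity, the
functional equation and the converse theorem. -/

set_option autoImplicit false

open scoped Classical
open Filter Topology Module

namespace Pool.Agent.Lib.MP_696deb_nt.CX

open CU CQ

/-- The function `F` is given by the Euler product of `y ^ 2 = x ^ 3 + a x + b`. -/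
def Eul (a b : ℤ) (F : ℂ → ℂ) : Prop := ∀ s : ℂ, (3 : ℝ) / 2 < s.re →
  HasProd
    (fun p : ℕ =>
      if p.Prime ∧ ¬ ((p : ℤ) ∣ 2 * (-4 * a ^ 3 - 27 * b ^ 2)) then
        (1 - ((p : ℂ) - (Nat.card {q : ZMod p × ZMod p //
            q.2 ^ 2 = q.1 ^ 3 + (a : ZMod p) * q.1 + (b : ZMod p)} : ℂ))
            * (p : ℂ) ^ (-s) + (p : ℂ) ^ (1 - 2 * s))⁻¹
      else 1)
    (F s)

/-- The parity of the corank. -/
def ParStmt : Prop := ∀ (D : ℤ) (δ : Qbar) (n : ℕ), D ≠ 0 → δ ^ 2 = D → n ≠ 0 →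
  ∃ s : ℕ, (Even s ↔ Wq D n) ∧ ∀ e, GroA (ac δ n) e ↔ s ≤ e

/-- The continuation, the central zero and the formula for the root number. -/
def FeStmt : Prop := ∀ (b D : ℤ) (n : ℕ), Tw b D n → (Wq D n ↔ rootNumber b = 1) ∧
  ∃ F : ℂ → ℂ, Differentiable ℂ F ∧ Eul 0 b F ∧ (¬ Wq D n → F 1 = 0)

/-- The converse theorem in corank zero. -/
def Cnv (b : ℤ) : Prop := CorankLE3 (Ek b) 0 → ∀ F : ℂ → ℂ, Differentiable ℂ F → Eul 0 b F → F 1 ≠ 0

/-- The property of the twist by `n` that is counted. -/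
def GoodK (c : Prop) (k : ℤ) (r n : ℕ) : Prop :=
  ∀ a b : ℤ, a = 0 → b = k * (n : ℤ) ^ 2 → (r = 0 ↔ rootNumber b = 1) ∧ ∀ W : WeierstrassCurve ℚ,
    W = { a₁ := 0, a₂ := 0, a₃ := 0, a₄ := (a : ℚ), a₆ := (b : ℚ) } →
    ∃ F : ℂ → ℂ, Differentiable ℂ F ∧ Eul a b F ∧
      IsLeast {j : ℕ | CorankLE3 W j} r ∧ Module.Finite ℤ W.toAffine.Point ∧
      finrank ℤ W.toAffine.Point ≤ r ∧ (r : ℕ∞) ≤ analyticOrderAt F 1 ∧
      (c → r = 0 → analyticOrderAt F 1 = (finrank ℤ W.toAffine.Point : ℕ∞))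

variable {c : Prop} {k D : ℤ} {n m : ℕ} {δ : Qbar}

theorem goodK (par : ParStmt) (fe : FeStmt) (t : Tw (k * (n : ℤ) ^ 2) D m) (hδ : δ ^ 2 = D)
    (h : GroA (ac δ m) 3) (cv : c → Cnv (k * (n : ℤ) ^ 2)) : GoodK c k (if Wq D m then 0 else 1) n := by
  obtain ⟨h0, F, h1, h2, h3⟩ := fe _ _ _ t
  obtain ⟨s, h4, h5⟩ := par D δ m t.D_ne hδ t.ne
  have := ek_ell t.b_ne
  have L := lnk t hδ
  have k0 := (h5 _).1 h
  have k1 := L.fg h
  have k2 := L.rank ((h5 s).2 le_rfl)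
  rw [Nat.even_iff] at h4
  by_cases hw : Wq D m
  · have k3 := h4.2 hw
    have k4 : finrank ℤ (Ek (k * (n : ℤ) ^ 2)).toAffine.Point = 0 := by omega
    have k5 : CorankLE3 (Ek (k * (n : ℤ) ^ 2)) 0 := L.corank ((h5 _).2 (by omega))
    rw [if_pos hw]
    rintro _ _ rfl rfl
    refine ⟨iff_of_true rfl (h0.1 hw), ?_⟩
    rintro _ rfl
    exact ⟨F, h1, h2, ⟨k5, fun _ _ => Nat.zero_le _⟩, k1, k4.le, by simp, fun e _ =>
      ((h1.analyticAt 1).analyticOrderAt_eq_zero.2 (cv e k5 F h1 h2)).trans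
        (congrArg Nat.cast k4.symm)⟩
  · rw [if_neg hw]
    rintro _ _ rfl rfl
    refine ⟨iff_of_false one_ne_zero fun e => hw (h0.2 e), ?_⟩
    rintro _ rfl
    refine ⟨F, h1, h2, ⟨L.corank h, fun j hj => Nat.pos_of_ne_zero fun e => hw ?_⟩, k1,
      (by omega : finrank ℤ (Ek (k * (n : ℤ) ^ 2)).toAffine.Point ≤ 1), ?_,
      fun _ e => absurd e one_ne_zero⟩
    · subst e
      have := (h5 _).1 (L.gro (fun j => (h.choose_spec j).1) hj)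
      exact h4.1 (by omega)
    · exact Order.one_le_iff_ne_zero.2 ((h1.analyticAt 1).analyticOrderAt_ne_zero.2 (h3 hw))

theorem Alm.and {P Q : ℕ → Prop} (h : Alm P) (h' : Alm Q) : Alm fun n => P n ∧ Q n := fun ε hε => by
  obtain ⟨X0, h0⟩ := h (ε / 2) (half_pos hε)
  obtain ⟨X1, h1⟩ := h' (ε / 2) (half_pos hε)
  refine ⟨max X0 X1, fun X hX => ?_⟩
  have k1 : {n : ℕ | 1 ≤ n ∧ n ≤ X ∧ ¬ (P n ∧ Q n)} ⊆
      {n : ℕ | 1 ≤ n ∧ n ≤ X ∧ ¬ P n} ∪ {n : ℕ | 1 ≤ n ∧ n ≤ X ∧ ¬ Q n} := fun n hn =>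
    (not_and_or.1 hn.2.2).imp (fun e => ⟨hn.1, hn.2.1, e⟩) fun e => ⟨hn.1, hn.2.1, e⟩
  have k3 := Nat.cast_le (α := ℝ).2 ((Set.ncard_le_ncard k1
    (((Set.finite_Iic X).subset fun _ h => h.2.1).union
      ((Set.finite_Iic X).subset fun _ h => h.2.1))).trans (Set.ncard_union_le _ _))
  have k4 := h0 X (le_of_max_le_left hX)
  have k5 := h1 X (le_of_max_le_right hX)
  push_cast at k3
  linarith

theorem tendK (par : ParStmt) (fe : FeStmt) (hk : k ≠ 0)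
    (cv : Alm fun n => c → Cnv (k * (n : ℤ) ^ 2)) {r : ℕ} (hr : r ≤ 1) :
    Tendsto (fun X : ℕ => (Set.ncard {n : ℕ | 1 ≤ n ∧ n ≤ X ∧ GoodK c k r n} : ℝ) / X)
      atTop (𝓝 (1 / 2)) := by
  have c0 : 2 * k.natAbs ^ 2 ≠ 0 :=
    mul_ne_zero two_ne_zero (pow_ne_zero 2 (Int.natAbs_ne_zero.2 hk))
  obtain ⟨δ, h1, h2⟩ := alm_gro CV.core (fun δ _ l hn => CV.finite_Zs (δ := δ) hn 1 l)
    (D := -3 * k) (mul_ne_zero (by norm_num) hk)
  exact half (V := fun n => Wq (-3 * k) (2 * k.natAbs ^ 2 * n)) (fun ε => hf_est _ c0)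
    (fun r n hn h => (h _ _ rfl rfl).1.trans (fe _ _ _ (tw hk hn)).1.symm)
    (((h2.mul c0).and cv).mono fun n hn e => goodK par fe (tw hk hn) h1 e.1 e.2) hr

end Pool.Agent.Lib.MP_696deb_nt.CX
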