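import Pool.Agent.Lib.MP_696deb_nt.CX.Ps

/-! Selmer cocycles defined with completions are coboundaries on the decomposition groups. -/

set_option autoImplicit false

open scoped Classical

namespace Pool.Agent.Lib.MP_696deb_nt.CX

open CU
open CK (ltw thL thL_apply thL_thL thL_ker JK_sq JK_JK JK_congr JK_one pf_JK pf_th j_z j_ne j_rho
  al_one rt_ne sa_pm)

variable {p : ℕ} [Fact p.Prime] {n : ℕ} (j : Qbar →+* PadicAlgCl p) {δ : Qbar}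
  {ε : AbsGal ℚ_[p] → ℤ}

theorem al_key (hn : n ≠ 0) (s : AbsGal ℚ_[p]) : ∃ ε : ℤ,
    (ε = 1 ∧ s (j (1 + 2 * zeta 1 ^ 2)) = j (1 + 2 * zeta 1 ^ 2) ∨
      ε = -1 ∧ s (j (1 + 2 * zeta 1 ^ 2)) = -j (1 + 2 * zeta 1 ^ 2)) ∧
    ∀ P, ε • ltw j hn s (thL (j_z j) P) = thL (j_z j) (ltw j hn s P) := by
  have z1 := j_z j
  have z2 := j_ne j
  have z3 : j (zeta 1 ^ 2) ^ 2 + j (zeta 1 ^ 2) + 1 = 0 :=
    mul_left_cancel₀ (sub_ne_zero.2 z2) (by linear_combination z1)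
  have e : j (1 + 2 * zeta 1 ^ 2) = 1 + 2 * j (zeta 1 ^ 2) := by
    rw [map_add, map_one, map_mul, map_ofNat]
  have s1 : (s : PadicAlgCl p →+* PadicAlgCl p) (j (zeta 1 ^ 2)) ^ 3 = 1 := by
    rw [← map_pow, z1, map_one]
  have s2 : ∀ P, ltw j hn s (JK z1 P) = JK s1 (ltw j hn s P) := fun P => by
    simp only [ltw, AddMonoidHom.comp_apply, pf_JK _ z1 s1, JK_JK]
    exact JK_congr _ _ (mul_comm _ _) _
  have s3 := congrArg s z3
  rw [map_add, map_add, map_pow, map_one, map_zero] at s3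
  have s4 : (s (j (zeta 1 ^ 2)) - j (zeta 1 ^ 2)) *
      (s (j (zeta 1 ^ 2)) - j (zeta 1 ^ 2) * j (zeta 1 ^ 2)) = 0 := by
    linear_combination s3 - s (j (zeta 1 ^ 2)) * z3 + z1
  rw [e, map_add, map_one, map_mul, map_ofNat]
  rcases mul_eq_zero.1 s4 with k | k <;> rw [sub_eq_zero] at k
  · exact ⟨1, .inl ⟨rfl, by rw [k]⟩, fun P => by
      rw [one_smul, thL_apply, thL_apply, map_add, map_nsmul, s2, JK_congr s1 z1 k]⟩
  · refine ⟨-1, .inr ⟨rfl, by rw [k]; linear_combination 2 * z3⟩, fun P => ?_⟩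
    rw [neg_one_zsmul, thL_apply, thL_apply, map_add, map_nsmul, s2,
      JK_congr s1 (MP_23455a_nt.cube_mul z1 z1) k, ← JK_JK z1 z1, JK_sq z1 z2]
    abel

theorem al_ne : (1 + 2 * zeta 1 ^ 2 : Qbar) ≠ 0 := fun k => by
  have : (3 : Qbar) = 0 := by
    have h := H3.zeta_one
    have h3 := H3.TA.zeta_cube
    linear_combination (4 : Qbar) * h - (1 + 2 * zeta 1 ^ 2) * k + 4 * zeta 1 * h3
  exact three_ne_zero this

theorem al_three (hn : n ≠ 0) (hδ : δ ≠ 0)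
    (hε : ∀ s, ε s = 1 ∧ s (j δ) = j δ ∨ ε s = -1 ∧ s (j δ) = -j δ) {S : PF (PadicAlgCl p)}
    (h : ∀ s, ε s • ltw j hn s (3 • S) = 3 • S) :
    ∃ Q : A, ∀ s, ε s • ltw j hn s (S - pf j Q) = S - pf j Q := by
  have z1 := j_z j
  have z2 := j_ne j
  choose η h1 h2 using al_key j hn
  have h3 : ∀ s P, (ε s * η s) • ltw j hn s (thL z1 P) = thL z1 (ε s • ltw j hn s P) :=
    fun s P => by rw [mul_smul, h2, map_zsmul]
  obtain ⟨Q, hQ⟩ := al_one j hn (δ := δ * (1 + 2 * zeta 1 ^ 2)) (ε := fun s => ε s * η s)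
    (mul_ne_zero hδ al_ne) (fun s => by
      have h4 := h1 s
      rw [map_mul, map_mul]
      generalize j (1 + 2 * zeta 1 ^ 2) = y at h4 ⊢
      rcases hε s with ⟨a, b⟩ | ⟨a, b⟩ <;> rcases h4 with ⟨c, d⟩ | ⟨c, d⟩ <;>
        rw [a, b, c, d] <;> simp) (S := thL z1 S) fun s => thL_ker z1 z2 (by
      rw [h3, ← map_sub, thL_thL z1 z2, smul_sub, smul_comm, ← map_nsmul, h, sub_self, neg_zero])
  obtain ⟨Q, rfl⟩ := exists_root 1 Q
  rw [pow_one, pf_th, ← map_sub] at hQ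
  obtain ⟨Q', hQ'⟩ := al_one j hn hδ hε (S := S - pf j Q) fun s => thL_ker z1 z2 (by
      rw [map_sub, ← h3, hQ, sub_self])
  exact ⟨Q + Q', fun s => by simpa only [map_add, sub_sub] using hQ' s⟩

theorem al_pow (hn : n ≠ 0) (hδ : δ ≠ 0)
    (hε : ∀ s, ε s = 1 ∧ s (j δ) = j δ ∨ ε s = -1 ∧ s (j δ) = -j δ) (m : ℕ)
    {S : PF (PadicAlgCl p)} (h : ∀ s, ε s • ltw j hn s (3 ^ m • S) = 3 ^ m • S) :
    ∃ Q : A, ∀ s, ε s • ltw j hn s (S - pf j Q) = S - pf j Q := by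
  induction m generalizing S with
  | zero => exact ⟨0, by simpa using h⟩
  | succ m ih =>
    obtain ⟨Q, hQ⟩ := ih (S := 3 • S) (by simpa only [pow_succ, mul_nsmul'] using h)
    obtain ⟨Q, rfl⟩ := MP_23455a_nt.exists_third Q
    obtain ⟨Q', hQ'⟩ := al_three j hn hδ hε (S := S - pf j Q) (fun s => by
      rw [nsmul_sub, ← map_nsmul (pf j)]
      exact hQ s)
    exact ⟨Q + Q', fun s => by simpa only [map_add, sub_sub] using hQ' s⟩

variable {b D : ℤ}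

theorem j_d (k : δ ^ 2 = D) : j δ ^ 2 = D := by rw [← map_pow, k, map_intCast]

theorem sa_j (t : Tw b D n) (k : δ ^ 2 = D) (P : Pts (Ek b) Qbar) :
    psi t (j_rho j n) (j_d j k) (pm (Ek b) j P) = pf j (Psi t k P) :=
  (psi_pm t (rho_cube n) k (j_rho j n) (j_d j k) j rfl P).trans
    (JK_one _ (by rw [div_self (rt_ne t.ne (j_rho j n)), one_pow]) _)

theorem sa_s (t : Tw b D n) (k : δ ^ 2 = D) (s : AbsGal ℚ_[p]) {e : ℤ}
    (he : e = 1 ∧ s (j δ) = j δ ∨ e = -1 ∧ s (j δ) = -j δ) (P : Pts (Ek b) (PadicAlgCl p)) :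
    psi t (j_rho j n) (j_d j k) (pm (Ek b) (s : PadicAlgCl p →+* PadicAlgCl p) P) =
      e • ltw j t.ne s (psi t (j_rho j n) (j_d j k) P) :=
  psi_sg t (j_rho j n) (j_d j k) (j_rho j n) (j_d j k) _ he P

theorem sa_ltw (t : Tw b D n) (k : δ ^ 2 = D) {s : AbsGal ℚ_[p]} {σ : Gam} {e : ℤ}
    (he : e = 1 ∧ s (j δ) = j δ ∨ e = -1 ∧ s (j δ) = -j δ) (h : ∀ x, j (σ x) = s (j x)) (Q : A) :
    e • ltw j t.ne s (pf j Q) = pf j (ac δ n σ Q) := by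
  obtain ⟨P, rfl⟩ := (Psi t k).surjective Q
  have u : (s : PadicAlgCl p →+* PadicAlgCl p).comp j = j.comp (σ : Qbar →+* Qbar) :=
    RingHom.ext fun x => (h x).symm
  rw [← Psi_pm, ← sa_j, ← sa_j, ← sa_s j t k s he, sa_pm, sa_pm, u]

theorem sa_sign (k : δ ^ 2 = D) (s : AbsGal ℚ_[p]) :
    ∃ e : ℤ, e = 1 ∧ s (j δ) = j δ ∨ e = -1 ∧ s (j δ) = -j δ := by
  rcases sq_eq_sq_iff_eq_or_eq_neg.1
    (show s (j δ) ^ 2 = j δ ^ 2 by rw [← map_pow, j_d j k, map_intCast]) with e | e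
  exacts [⟨1, .inl ⟨rfl, e⟩⟩, ⟨-1, .inr ⟨rfl, e⟩⟩]

omit [Fact p.Prime] in
theorem za_of_sel (t : Tw b D n) (hδ : δ ^ 2 = D) {k : ℕ} {ξ : Gam → Pts (Ek b) Qbar}
    (h : IsSel (Ek b) (3 ^ k) ξ) : (fun g => Psi t hδ (ξ g)) ∈ ZA (ac δ n) k := by
  obtain ⟨h1, h2, h3, -, h4⟩ := h
  replace h2 : ∀ σ : Gam, 3 ^ k • Psi t hδ (ξ σ) = 0 := fun σ =>
    (map_nsmul (Psi t hδ) _ _).symm.trans ((congrArg _ (h2 σ)).trans (map_zero _))
  let _ : TopologicalSpace A := ⊥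
  have : DiscreteTopology A := ⟨rfl⟩
  have c1 : Continuous fun g => Psi t hδ (ξ g) := (h1.comp (Psi t hδ)).continuous
  refine ⟨⟨B2.Sm.of_continuousOn isClosed_univ c1.continuousOn, fun g _ g' _ => ?_⟩, h2,
    fun p hp => ?_⟩
  · exact (congrArg (Psi t hδ) (h3 g g')).trans ((map_add _ _ _).trans
      (congrArg _ (Psi_pm t hδ g _)))
  have := Fact.mk hp
  obtain ⟨j, hj⟩ := TF.ex_emb (pl p) (pl_p hp)
  obtain ⟨S, hS⟩ := h4 p j
  choose ε hε using sa_sign j hδ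
  have hS' : ∀ (s : AbsGal ℚ_[p]) (σ : Gam), (∀ x, j (σ x) = s (j x)) → pf j (Psi t hδ (ξ σ)) =
      ε s • ltw j t.ne s (psi t (j_rho j n) (j_d j hδ) S) - psi t (j_rho j n) (j_d j hδ) S :=
    fun s σ e => by
      rw [← sa_j, ← sa_s j t hδ s (hε s), ← map_sub]
      exact congrArg _ (hS s σ e)
  generalize psi t (j_rho j n) (j_d j hδ) S = S at hS'
  obtain ⟨Q, hQ⟩ := al_pow j t.ne (t.d_ne hδ) hε k (S := S) fun s => by
    obtain ⟨σ, hσ⟩ := TF.ex_res j s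
    rw [map_nsmul, smul_comm, ← sub_eq_zero, ← smul_sub, ← hS' s σ hσ, ← map_nsmul, h2, map_zero]
  refine ⟨Q, fun g hg => closure_minimal (t := {g | Psi t hδ (ξ g) = cob (ac δ n) Q g}) ?_
    (isClosed_eq c1 (continuousOn_univ.1 (ac_coc (t.d_ne hδ) hδ ⊤ Q).1.continuousOn))
    (TF.dec_closure j (hj g hg))⟩
  rintro σ ⟨s, hσ⟩
  have k2 := hQ s
  rw [map_sub, smul_sub, sa_ltw j t hδ (hε s) hσ, sub_eq_sub_iff_sub_eq_sub, ← hS' s σ hσ,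
    ← map_sub] at k2
  exact WeierstrassCurve.Affine.Point.map_injective _ k2

omit [Fact p.Prime] in
theorem lnk (t : Tw b D n) (hδ : δ ^ 2 = D) : Lnk (Ek b) (ac δ n) (Psi t hδ) :=
  ⟨Psi_pm t hδ, ac_coc (t.d_ne hδ) hδ ⊤, fun _ _ => za_of_sel t hδ⟩

end Pool.Agent.Lib.MP_696deb_nt.CX
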