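import Pool.Agent.Lib.MP_696deb_nt.CX.Fin
import Pool.Agent.Lib.MP_696deb_nt.CV.Core

/-! Corank and rank of `y ^ 2 = x ^ 3 + k n ^ 2` for almost all `n`. -/

set_option autoImplicit false

namespace Pool.Agent.Lib.MP_696deb_nt.CX

open CU

theorem all {k : ℤ} (hk : k ≠ 0) : Alm fun n => Good (Ek (k * (n : ℤ) ^ 2)) 1 :=
  top_of_core CV.core hk

end Pool.Agent.Lib.MP_696deb_nt.CX
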