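import Pool.Agent.Lib.MP_696deb_nt.CK.Lk

/-! Twisted actions with a quadratic sign, and the groups of cocycles that are locally trivial. -/

set_option autoImplicit false

open scoped Classical

namespace Pool.Agent.Lib.MP_696deb_nt.CX

export Pool.Agent.Lib.MP_696deb_nt.CU (F3 O A JJ om th un nu red T kT chi ep rho kk act Kc Gq Iq sq
  fq Loc IsZ Zs kC Gro)
export Pool.Agent.Lib.MP_696deb_nt.B2 (Qbar Gam Plc Dec Ine Sm cc)
export Pool.Agent.Lib.MP_696deb_nt.Sm (pl pl_p)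
export Pool.Agent.H3 (Coc cob T3 zeta cy)
export Pool.Agent.Lib.MP_696deb_nt.B2.Stmt (Pts pm AbsGal LocTriv IsSel Cohom)
export Pool.Agent.Lib.MP_696deb_nt.CK (CorankLE3 PF pf JK)

/-- The curve `y ^ 2 = x ^ 3 + b`. -/
def Ek (b : ℤ) : WeierstrassCurve ℚ := ⟨0, 0, 0, ((0 : ℤ) : ℚ), ((b : ℤ) : ℚ)⟩

/-- The sign by which `g` acts on a square root. -/
noncomputable def sg (δ : Qbar) (g : Gam) : ℤ := if g δ = δ then 1 else -1

/-- The action twisted by the cube root of `n` and by the square root `δ`. -/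
noncomputable def ac (δ : Qbar) (n : ℕ) (g : Gam) : A →+ A := sg δ g • act n 1 g

/-- The cocycles killed by `3 ^ k` that are coboundaries on every decomposition group. -/
noncomputable def ZA (a : Gam → A →+ A) (k : ℕ) : AddSubgroup (Gam → A) where
  carrier := {c | Coc ⊤ a c ∧ (∀ g, 3 ^ k • c g = 0) ∧
    ∀ q : ℕ, q.Prime → ∃ P : A, ∀ g ∈ Gq q, c g = cob a P g}
  zero_mem' := ⟨H3.Coc.zero _ _, fun _ => smul_zero _,
    fun _ _ => ⟨0, fun g _ => (CU.cob_zero _ g).symm⟩⟩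
  add_mem' := fun h h' => ⟨h.1.add h'.1, fun g => by
    rw [Pi.add_apply, smul_add, h.2.1, h'.2.1, add_zero], fun q hq => by
    obtain ⟨P, hP⟩ := h.2.2 q hq
    obtain ⟨Q, hQ⟩ := h'.2.2 q hq
    exact ⟨P + Q, fun g hg => by rw [Pi.add_apply, hP g hg, hQ g hg, CU.cob_add]⟩⟩
  neg_mem' := fun h => ⟨h.1.neg, fun g => by rw [Pi.neg_apply, smul_neg, h.2.1, neg_zero],
    fun q hq => by
    obtain ⟨P, hP⟩ := h.2.2 q hq
    exact ⟨-P, fun g hg => by rw [Pi.neg_apply, hP g hg, CU.cob_neg]⟩⟩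

theorem mem_ZA {a : Gam → A →+ A} {k : ℕ} {c : Gam → A} : c ∈ ZA a k ↔ Coc ⊤ a c ∧
    (∀ g, 3 ^ k • c g = 0) ∧ ∀ q : ℕ, q.Prime → ∃ P : A, ∀ g ∈ Gq q, c g = cob a P g := Iff.rfl

/-- The growth condition. -/
def GroA (a : Gam → A →+ A) (s : ℕ) : Prop :=
  ∃ C : ℕ, ∀ k : ℕ, (ZA a k : Set (Gam → A)).Finite ∧ Nat.card (ZA a k) ≤ C * 3 ^ (s * k)

/-- The action `a` is the action on the points of `W`, and Selmer cocycles are locally trivial. -/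
structure Lnk (W : WeierstrassCurve ℚ) (a : Gam → A →+ A) (Ψ : Pts W Qbar ≃+ A) : Prop where
  gal : ∀ (g : Gam) (P : Pts W Qbar), Ψ (pm W (g : Qbar →+* Qbar) P) = a g (Ψ P)
  coc : ∀ Q : A, Coc ⊤ a (cob a Q)
  sel : ∀ (k : ℕ) (ξ : Gam → Pts W Qbar), IsSel W (3 ^ k) ξ → (fun g => Ψ (ξ g)) ∈ ZA a k

variable {δ : Qbar} {D : ℤ} {n : ℕ}

theorem ac_apply (δ : Qbar) (n : ℕ) (g : Gam) (P : A) : ac δ n g P = sg δ g • act n 1 g P := rfl

theorem sg_or (h : δ ^ 2 = D) (g : Gam) :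
    sg δ g = 1 ∧ g δ = δ ∨ sg δ g = -1 ∧ g δ = -δ := by
  by_cases e : g δ = δ
  · exact .inl ⟨if_pos e, e⟩
  · refine .inr ⟨if_neg e, (sq_eq_sq_iff_eq_or_eq_neg.1 ?_).resolve_left e⟩
    rw [← map_pow, h, map_intCast]

theorem sg_spec (h : δ ^ 2 = D) (g : Gam) : g δ = sg δ g * δ := by
  rcases sg_or h g with ⟨a, b⟩ | ⟨a, b⟩ <;> simp [a, b]

theorem sg_eq (h0 : δ ≠ 0) (h : δ ^ 2 = D) {g : Gam} {e : ℤ} (k : g δ = e * δ) : sg δ g = e :=
  Int.cast_injective (α := Qbar) (mul_right_cancel₀ h0 ((sg_spec h g).symm.trans k))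

theorem sg_mul (h0 : δ ≠ 0) (h : δ ^ 2 = D) (g g' : Gam) : sg δ (g * g') = sg δ g * sg δ g' :=
  sg_eq h0 h (by
    rw [AlgEquiv.mul_apply, sg_spec h g', map_mul, map_intCast, sg_spec h g, Int.cast_mul]
    ring)

theorem sm_sg (δ : Qbar) (H : Subgroup Gam) : Sm H (sg δ) :=
  (B2.sm_apply δ).comp fun x => if x = δ then (1 : ℤ) else -1

theorem ac_mul (h0 : δ ≠ 0) (h : δ ^ 2 = D) (g g' : Gam) (P : A) :
    ac δ n (g * g') P = ac δ n g (ac δ n g' P) := by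
  rw [ac_apply, ac_apply, ac_apply, sg_mul h0 h, CU.act_mul, map_zsmul, mul_smul]

theorem ac_coc (h0 : δ ≠ 0) (h : δ ^ 2 = D) (H : Subgroup Gam) (Q : A) :
    Coc H (ac δ n) (cob (ac δ n) Q) :=
  ⟨(sm_sg δ H).comp₂ (CU.sm_act n 1 H Q) fun e R => e • R - Q, fun g _ g' _ => by
    simp only [cob, ac_mul h0 h, map_sub]
    abel⟩

end Pool.Agent.Lib.MP_696deb_nt.CX
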