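import Pool.Agent.Lib.MP_696deb_nt.CX.Top
import Pool.Agent.Lib.MP_696deb_nt.CV.Z1

/-! The reduction to the core statement. -/

set_option autoImplicit false

namespace Pool.Agent.Lib.MP_696deb_nt.CX

open CU
open CU.CV (Qd)

theorem top_of_core (hc : ∀ δ : Qd, CV.CoreStmt (δ := δ)) {k : ℤ} (hk : k ≠ 0) :
    Alm fun n => Good (Ek (k * (n : ℤ) ^ 2)) 1 :=
  top hc (fun δ _ l hn => CV.finite_Zs (δ := δ) hn 1 l) hk

end Pool.Agent.Lib.MP_696deb_nt.CX
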