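import Pool.Agent.Lib.MP_696deb_nt.CX.D0

/-! The isomorphism between the curve `y ^ 2 = x ^ 3 + b` and the Fermat cubic. -/

set_option autoImplicit false

open scoped Classical
open WeierstrassCurve WeierstrassCurve.Affine

namespace Pool.Agent.Lib.MP_696deb_nt.CX

open CU
open CK (rt_ne rt_cube JK_congr JK_one om_pow)
open Pool.Agent.Lib.MP_23455a_nt (W27)
open Pool.Agent.H3.TA (tae_ext)

/-- The relation between the parameters. -/
structure Tw (b D : ℤ) (n : ℕ) : Prop where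
  ne : n ≠ 0
  eq : 4 * b * D ^ 3 = -27 * (n : ℤ) ^ 2

variable {K L : Type} [Field K] [CharZero K] [Field L] [CharZero L] {n : ℕ} {b D : ℤ}

theorem Tw.D_ne (t : Tw b D n) : D ≠ 0 := by
  rintro rfl
  exact t.ne (by simpa using t.eq)

theorem Tw.b_ne (t : Tw b D n) : b ≠ 0 := by
  rintro rfl
  exact t.ne (by simpa using t.eq)

theorem Tw.d_ne (t : Tw b D n) {d : K} (h : d ^ 2 = D) : d ≠ 0 := by
  rintro rfl
  exact t.D_ne (by exact_mod_cast (h.symm.trans (by norm_num) : (D : K) = 0))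

theorem vc (t : Tw b D n) {ρ d : K} (h : ρ ^ 3 = n) (k : d ^ 2 = D) :
    VC (RingHom.id K) ((Ek b).baseChange K) (W27.baseChange K) (d / ρ) 0 0 (-1 / 2) := by
  have h0 := rt_ne t.ne h
  have e : (4 * b * D ^ 3 : K) = -27 * (n : K) ^ 2 := by exact_mod_cast t.eq
  refine ⟨div_ne_zero (t.d_ne k) h0, ?_, ?_, ?_, ?_, ?_⟩ <;>
    simp [Ek, W27, WeierstrassCurve.baseChange]
  · norm_num
  · rw [← h, ← k] at e
    field_simp
    linear_combination e

/-- The isomorphism. -/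
noncomputable def psi (t : Tw b D n) {ρ d : K} (h : ρ ^ 3 = n) (k : d ^ 2 = D) :
    Pts (Ek b) K ≃+ PF K :=
  AddEquiv.ofBijective (vc t h k).hom ⟨(vc t h k).hom_injective, by
    have h0 := rt_ne t.ne h
    have h1 := t.d_ne k
    rintro (_ | ⟨X, Y, e⟩)
    · exact ⟨0, rfl⟩
    · exact (vc t h k).mem_range e (x := X * (ρ / d) ^ 2) (y := (Y + 1 / 2) * (ρ / d) ^ 3)
        (by rw [RingHom.id_apply]; field_simp; ring)
        (by simp only [RingHom.id_apply]; field_simp; ring)⟩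

theorem psi_neg (t : Tw b D n) {ρ d d' : K} (h : ρ ^ 3 = n) (k : d ^ 2 = D) (k' : d' ^ 2 = D)
    (e : d' = -d) (P : Pts (Ek b) K) : psi t h k' P = -psi t h k P := by
  subst e
  rw [← map_neg]
  rcases P with _ | ⟨x, y, u⟩
  · rfl
  refine tae_ext ?_ ?_
  · simp [neg_div]
  · simp [Ek, WeierstrassCurve.baseChange, neg_div]
    ring

theorem psi_pm (t : Tw b D n) {ρ d : K} (h : ρ ^ 3 = n) (k : d ^ 2 = D) {ρ' d' : L}
    (h' : ρ' ^ 3 = n) (k' : d' ^ 2 = D) (f : K →+* L) (e : f d = d') (P : Pts (Ek b) K) :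
    psi t h' k' (pm (Ek b) f P) = JK (rt_cube t.ne h h' f) (pf f (psi t h k P)) := by
  subst e
  have h0 := rt_ne t.ne h
  have h1 := rt_ne t.ne h'
  have h2 : f ρ ≠ 0 := (map_ne_zero f).2 h0
  have h3 : f ρ ^ 3 = ρ' ^ 3 := by rw [← map_pow, h, h', map_natCast]
  rcases P with _ | ⟨x, y, k⟩
  · rfl
  refine tae_ext ?_ ?_
  · simp [map_ofNat]
    field_simp
  · simp [map_ofNat, div_pow, h3]

theorem psi_sg (t : Tw b D n) {ρ d : K} (h : ρ ^ 3 = n) (k : d ^ 2 = D) {ρ' d' : L}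
    (h' : ρ' ^ 3 = n) (k' : d' ^ 2 = D) (f : K →+* L) {ε : ℤ}
    (e : ε = 1 ∧ f d = d' ∨ ε = -1 ∧ f d = -d') (P : Pts (Ek b) K) :
    psi t h' k' (pm (Ek b) f P) = ε • JK (rt_cube t.ne h h' f) (pf f (psi t h k P)) := by
  rcases e with ⟨rfl, e⟩ | ⟨rfl, e⟩
  · rw [one_smul, psi_pm t h k h' k' f e]
  · have k2 : (-d') ^ 2 = D := by rw [neg_sq, k']
    rw [neg_one_zsmul, ← psi_pm t h k h' k2 f e, psi_neg t h' k' k2 rfl, neg_neg]

variable {δ : Qbar}

/-- The isomorphism on algebraic points. -/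
noncomputable def Psi (t : Tw b D n) (k : δ ^ 2 = D) : Pts (Ek b) Qbar ≃+ A := psi t (rho_cube n) k

theorem Psi_pm (t : Tw b D n) (k : δ ^ 2 = D) (g : Gam) (P : Pts (Ek b) Qbar) :
    Psi t k (pm (Ek b) (g : Qbar →+* Qbar) P) = ac δ n g (Psi t k P) := by
  rw [ac_apply, act_apply, one_add_one_eq_two, pow_two, ep_sq, one_smul, un,
    om_pow _ (by rw [pow_right_comm, zsq_cube, one_pow])]
  refine (psi_sg t (rho_cube n) k (rho_cube n) k _ (sg_or k g) P).trans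
    (congrArg _ (JK_congr _ _ ?_ _))
  rw [RingHom.coe_coe, kk_spec, mul_div_cancel_left₀ _ (rho_ne t.ne), pow_right_comm]

end Pool.Agent.Lib.MP_696deb_nt.CX
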