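import Pool.Agent.Lib.MP_696deb_nt.CX.Glue
import Pool.Agent.Lib.MP_696deb_nt.CQ.Fe
import Pool.Agent.Lib.MP_696deb_nt.EV.Fin

/-! The converse theorem for the families with a rational point of order three on the curve or on
the isogenous curve. -/

set_option autoImplicit false

open scoped Classical

namespace Pool.Agent.Lib.MP_696deb_nt.CX

open CU

variable {n s : ℕ} {b D k : ℤ}

theorem sq_za (n e j : ℕ) : Zs n e (2 * j) = ZA (act n e) j :=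
  le_antisymm (fun _ h => ⟨h.coc, fun g => (three_pow_iff j _).2 (h.kil g),
    fun _ hq => CK.loc_all h hq⟩) (za_le n e j)

theorem sq_one (h : GroA (act n 1) s) : Gro n s :=
  h.imp fun _ hC j => sq_za n 1 j ▸ (hC j).2

theorem sq_zero (hn : n ≠ 0) (h : GroA (act n 0) s) : Gro n s := by
  obtain ⟨C, hC⟩ := h
  refine ⟨Nat.card (Zs n 1 1) * C, fun j => ?_⟩
  have := (finite_Zs hn 1 (2 * j + 1)).to_subtype
  refine (AddSubgroup.card_le_of_le (zs_mono (Nat.le_succ _))).trans ?_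
  rw [mul_assoc]
  refine (card_Zs_th hn 1 (2 * j)).trans (Nat.mul_le_mul_left _ ?_)
  rw [← zs_mod, sq_za]
  exact (hC j).2

theorem sq_fin (hn : n ≠ 0) (e j : ℕ) : (ZA (act n e) j : Set (Gam → A)).Finite :=
  sq_za n e j ▸ finite_Zs hn e _

theorem sq_jac {p : ℕ} (hp : p.Prime) (h : IsSquare D) (hD : ¬ (p : ℤ) ∣ D) : jacobiSym D p = 1 := by
  obtain ⟨c, rfl⟩ := h
  rw [← pow_two]
  exact jacobiSym.sq_one' (Int.isCoprime_iff_gcd_eq_one.1 ((Nat.prime_iff_prime_int.1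
    hp).irreducible.coprime_iff_not_dvd.2 fun e => hD (e.mul_right c)).symm)

theorem sq_cnt (t : Tw b D n) (h : IsSquare D ∨ IsSquare (-3 * D)) {p : ℕ} (hp : p.Prime)
    (h6 : ¬ (p : ℤ) ∣ 6 * D) : CQ.cnb b p = CL.cnt n p := by
  have := Fact.mk hp
  have h2 : p ≠ 2 := fun e => h6 (e ▸ ⟨3 * D, by push_cast; ring⟩)
  have h3 : p ≠ 3 := fun e => h6 (e ▸ ⟨2 * D, by push_cast; ring⟩)
  have hD : ¬ (p : ℤ) ∣ D := fun e => h6 (e.mul_left 6)
  have h1 := CQ.count_tw h2 t.eq hD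
  have h4 : jacobiSym D p = 1 ∨ p % 3 = 2 := by
    rcases h with h | h
    · exact .inl (sq_jac hp h hD)
    have h0 : ¬ 3 ∣ p := fun e => h3 ((Nat.prime_dvd_prime_iff_eq Nat.prime_three hp).1 e).symm
    refine or_iff_not_imp_right.2 fun e => ?_
    have h5 := sq_jac hp h fun e => h6 (e.trans ⟨-2, by ring⟩)
    have h7 := CQ.qst_jac (q := 3) (by decide) (hp.odd_of_ne_two h2)
    rw [jacobiSym.mod_left (p : ℤ), show (p : ℤ) % (3 : ℕ) = 1 by omega, jacobiSym.one_left,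
      show CQ.qst 3 = -3 by decide] at h7
    rwa [jacobiSym.mul_left, h7, one_mul] at h5
  rcases h4 with e | e
  · rw [e] at h1
    omega
  · rw [CL.count_two e] at h1 ⊢
    omega

theorem sq_cnv (hk : k ≠ 0) (h : IsSquare k ∨ IsSquare (-3 * k)) (hn : n ≠ 0)
    (hc : ¬ ∃ i ≤ 9, ∃ m : ℕ, 2 * k.natAbs ^ 2 * n = i * m ^ 3) : Cnv (k * (n : ℤ) ^ 2) := by
  intro h0 F h1 h2
  have t := tw hk hn
  have h' : IsSquare (-3 * k) ∨ IsSquare (-3 * (-3 * k)) :=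
    h.symm.imp_right fun ⟨c, e⟩ => ⟨3 * c, by rw [e]; ring⟩
  have hδ := B2.rt_sq (-3 * k)
  have L := lnk t hδ
  refine CT.conv t.ne ?_ ?_ h1 fun s hs => (h2 s hs).congr_fun fun p => ?_
  · rintro ⟨m, e | e | e⟩
    · exact hc ⟨1, by norm_num, m, by rw [e, one_mul]⟩
    · exact hc ⟨3, by norm_num, m, e⟩
    · exact hc ⟨9, le_rfl, m, e⟩
  · rcases h' with e | e
    · rw [ac_one (fix_of_sq hδ e)] at L
      exact sq_one (L.gro (sq_fin t.ne 1) h0)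
    · rw [ac_zero (sg_of_sq (t.d_ne hδ) hδ e)] at L
      exact sq_zero t.ne (L.gro (sq_fin t.ne 0) h0)
  · by_cases hp : p.Prime
    · have pp := Nat.prime_iff_prime_int.1 hp
      have e1 : (p : ℤ) ∣ 2 * (-4 * 0 ^ 3 - 27 * (k * (n : ℤ) ^ 2) ^ 2) ↔ (p : ℤ) ∣ 6 * k * n :=
        ⟨fun e => pp.dvd_of_dvd_pow (n := 4) (e.trans ⟨-24 * k ^ 2, by ring⟩),
          fun e => e.trans ⟨-9 * k * n ^ 3, by ring⟩⟩
      have e2 : (p : ℤ) ∣ 2 * (-4 * 0 ^ 3 - 27 * (-432 * ((2 * k.natAbs ^ 2 * n : ℕ) : ℤ) ^ 2) ^ 2) ↔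
          (p : ℤ) ∣ 6 * k * n := by
        push_cast
        rw [sq_abs]
        exact ⟨fun e => pp.dvd_of_dvd_pow (n := 13) (e.trans ⟨-81 * k ^ 5 * n ^ 9, by ring⟩),
          fun e => e.trans ⟨-26873856 * k ^ 7 * n ^ 3, by ring⟩⟩
      refine if_ctx_congr (and_congr_right fun _ => not_congr (e2.trans e1.symm)) (fun e => ?_)
        fun _ => rfl
      rw [CT.ef, ← sq_cnt t h' hp fun d => e.2 (e1.2 ?_)]
      · rfl
      · exact (pp.dvd_of_dvd_pow (n := 2) (d.trans ⟨-2 * k, by ring⟩)).mul_right _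
    · rw [if_neg fun e => hp e.1, if_neg fun e => hp e.1]

theorem cnv_sq (hk : k ≠ 0) :
    Alm fun n => IsSquare k ∨ IsSquare (-3 * k) → Cnv (k * (n : ℤ) ^ 2) :=
  (Alm.mul (P := fun n => ¬ ∃ i ≤ 9, ∃ m : ℕ, n = i * m ^ 3)
    (fun ε hε => by simpa only [not_not] using CT.cubes3 hε) (c := 2 * k.natAbs ^ 2)
    (mul_ne_zero two_ne_zero (pow_ne_zero 2 (Int.natAbs_ne_zero.2 hk)))).mono
      fun _ hn hc h => sq_cnv hk h hn hc

end Pool.Agent.Lib.MP_696deb_nt.CX
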