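import Pool.Agent.Lib.MP_696deb_nt.CX.Br
import Pool.Agent.Lib.MP_696deb_nt.CU.Core

/-! From the growth condition to the corank and the rank of `y ^ 2 = x ^ 3 + k n ^ 2`. -/

set_option autoImplicit false

open scoped Classical
open Module

namespace Pool.Agent.Lib.MP_696deb_nt.CX

open CU
open CU.CV (Qd)

variable {n r : ℕ} {b D k : ℤ} {δ : Qbar}

/-- The corank and the rank are at most `r`. -/
def Good (W : WeierstrassCurve ℚ) (r : ℕ) : Prop :=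
  CorankLE3 W r ∧ Module.Finite ℤ W.toAffine.Point ∧ finrank ℤ W.toAffine.Point ≤ r

/-- The property holds for almost all positive integers. -/
def Alm (P : ℕ → Prop) : Prop := ∀ ε : ℝ, 0 < ε → ∃ X0 : ℕ, ∀ X ≥ X0,
  (Set.ncard {n : ℕ | 1 ≤ n ∧ n ≤ X ∧ ¬ P n} : ℝ) ≤ ε * X

theorem ek_ell (hb : b ≠ 0) : (Ek b).IsElliptic := ⟨IsUnit.mk0 _ (by
  simp [Ek, WeierstrassCurve.Δ, WeierstrassCurve.b₂, WeierstrassCurve.b₄, WeierstrassCurve.b₆,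
    WeierstrassCurve.b₈, hb])⟩

theorem link (t : Tw b D n) (hδ : δ ^ 2 = D) (h : GroA (ac δ n) (r + 2)) : Good (Ek b) r := by
  have := ek_ell t.b_ne
  exact ⟨(lnk t hδ).corank h, (lnk t hδ).fg h, Nat.le_of_add_le_add_right ((lnk t hδ).rank h)⟩

theorem tw (hk : k ≠ 0) (hn : n ≠ 0) : Tw (k * (n : ℤ) ^ 2) (-3 * k) (2 * k.natAbs ^ 2 * n) :=
  ⟨mul_ne_zero (mul_ne_zero two_ne_zero (pow_ne_zero 2 (Int.natAbs_ne_zero.2 hk))) hn, by
    push_cast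
    rw [sq_abs]
    ring⟩

theorem Alm.mono {P Q : ℕ → Prop} (h : Alm P) (k : ∀ n, n ≠ 0 → P n → Q n) : Alm Q := fun ε hε => by
  obtain ⟨X0, hX⟩ := h ε hε
  refine ⟨X0, fun X u => le_trans (Nat.cast_le.2 (Set.ncard_le_ncard (fun n hn => ?_)
    ((Set.finite_le_nat X).subset fun n hn => hn.2.1))) (hX X u)⟩
  exact ⟨hn.1, hn.2.1, fun e => hn.2.2 (k n (Nat.one_le_iff_ne_zero.1 hn.1) e)⟩

theorem Alm.mul {P : ℕ → Prop} (h : Alm P) {c : ℕ} (hc : c ≠ 0) : Alm fun n => P (c * n) :=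
  fun ε hε => by
    have c0 : (0 : ℝ) < c := by positivity
    obtain ⟨X0, hX⟩ := h (ε / c) (by positivity)
    refine ⟨X0, fun X u => ?_⟩
    have h1 := hX (c * X) (u.trans (Nat.le_mul_of_pos_left X (Nat.pos_of_ne_zero hc)))
    rw [Nat.cast_mul, ← mul_assoc, div_mul_cancel₀ _ c0.ne'] at h1
    refine le_trans (Nat.cast_le.2 (Set.ncard_le_ncard_of_injOn (c * ·) (fun n hn => ?_)
      (fun a _ b _ e => Nat.eq_of_mul_eq_mul_left (Nat.pos_of_ne_zero hc) e)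
      ((Set.finite_le_nat (c * X)).subset fun n hn => hn.2.1))) h1
    exact ⟨Nat.mul_pos (Nat.pos_of_ne_zero hc) hn.1, Nat.mul_le_mul_left c hn.2.1, hn.2.2⟩

theorem alm_gro (hc : ∀ δ : Qd, CV.CoreStmt (δ := δ))
    (hf : ∀ (δ : Qd) (n l : ℕ), n ≠ 0 → (CV.Zs (δ := δ) n 1 l : Set (Gam → A)).Finite)
    (hD : D ≠ 0) : ∃ δ : Qbar, δ ^ 2 = D ∧ Alm fun n => GroA (ac δ n) 3 := by
  have h := B2.rt_sq D
  have c1 : Alm fun n => Gro n 3 := core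
  by_cases h0 : IsSquare D
  · exact ⟨_, h, c1.mono fun n hn e => ac_one (fix_of_sq h h0) n ▸ gro_one hn e⟩
  by_cases h1 : IsSquare (-3 * D)
  · exact ⟨_, h, c1.mono fun n hn e =>
      ac_zero (sg_of_sq (B2.b1b_rt_ne hD) h h1) n ▸ gro_zero hn e⟩
  obtain ⟨δ, rfl⟩ := exists_Qd h0 h1
  exact ⟨_, δ.h0, Alm.mono (P := fun n => CV.Gro n 3) (hc δ) fun n hn e =>
    gro_cv (fun l => hf δ n l hn) e⟩

theorem top (hc : ∀ δ : Qd, CV.CoreStmt (δ := δ))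
    (hf : ∀ (δ : Qd) (n l : ℕ), n ≠ 0 → (CV.Zs (δ := δ) n 1 l : Set (Gam → A)).Finite)
    (hk : k ≠ 0) : Alm fun n => Good (Ek (k * (n : ℤ) ^ 2)) 1 := by
  obtain ⟨δ, h1, h2⟩ := alm_gro hc hf (D := -3 * k) (mul_ne_zero (by norm_num) hk)
  exact (h2.mul (c := 2 * k.natAbs ^ 2) (mul_ne_zero two_ne_zero
    (pow_ne_zero 2 (Int.natAbs_ne_zero.2 hk)))).mono fun n hn e => link (tw hk hn) h1 e

end Pool.Agent.Lib.MP_696deb_nt.CX
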